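import Pool.Agent.Lib.TW.Defs

/-!
# TANK W, R: the fields with bounded distortion of a given transcendence degree
-/

set_option autoImplicit false

namespace Pool.Agent.TW

open Pool.Agent.H15JM (RVal)

universe u

variable {Ω : Type u} [Field Ω]

/-- `LU` for the fields with bounded distortion of transcendence degree `n`. -/
def LUB (p : ℕ) (v : RVal Ω) (k : Type u) [Field k] [Algebra k Ω] (r n : ℕ) : Prop :=
  ∀ E : IntermediateField k Ω, E.FG → Full v E → Algebra.trdeg k E = n → BD p v E → LU p v r E

end Pool.Agent.TW
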