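import Pool.Agent.Lib.TW.Estar
import Pool.Agent.Lib.TWR.Defs

/-!
# TANK W, skeleton R, row R1: local uniformization of the fields of the frames of `F(z)`
-/

set_option autoImplicit false

open Polynomial

namespace Pool.Agent.TW

open Pool.Agent.H15JM (RVal)
open Pool.Agent.LU1 (VPos adj)
open Pool.Agent.D2 (Ctx0)
open Pool.Agent.D2P (hen)

universe u

variable {k Ω : Type u} [Field k] [Field Ω] [Algebra k Ω] {v : RVal Ω} {r D : ℕ}

namespace R1

open E10

/-- The field of the frame with one more parameter. -/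
theorem snoc_K (F : Fr k v r D) {X : Ω} (hX0 : X ≠ 0) (hX : 0 < v X)
    (htr : Transcendental F.K X) : (snocFr F hX0 hX htr).K = adj F.K X := by
  have hr : Set.range (Fin.snoc F.y X : Fin (D + 1) → Ω) = Set.range F.y ∪ {X} := by
    ext a
    constructor
    · rintro ⟨i, rfl⟩
      refine Fin.lastCases ?_ (fun i => ?_) i
      · rw [Fin.snoc_last]
        exact Or.inr rfl
      · rw [Fin.snoc_castSucc]
        exact Or.inl ⟨i, rfl⟩
    · rintro (⟨i, rfl⟩ | ha)
      · exact ⟨i.castSucc, by rw [Fin.snoc_castSucc]⟩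
      · exact ⟨Fin.last D, by rw [Fin.snoc_last, Set.mem_singleton_iff.1 ha]⟩
  have h1 : (snocFr F hX0 hX htr).K = IntermediateField.adjoin k
      (Set.range F.x ∪ Set.range (Fin.snoc F.y X : Fin (D + 1) → Ω)) := rfl
  have h2 : adj F.K X = F.K ⊔ IntermediateField.adjoin k {X} := rfl
  rw [h1, h2, hr, ← Set.union_assoc, IntermediateField.adjoin_union, Fr.K]

/-- A frame of `F(z)` over a frame of `k(S')`. -/
theorem frame_K {p : ℕ} [Fact p.Prime] [CharP k p] [CharP Ω p] [IsAlgClosed Ω] [IsAlgClosed k]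
    {F : IntermediateField k Ω} {z η : Ω} {ρ b₁ b ε : ℝ} (h : Ctx k v r)
    (d : SD p k v r D F z η ρ b₁ b ε) (hF : F.FG) (htr : Algebra.trdeg k F = (r + D : ℕ))
    (hLU : LU p v r d.S'.K) :
    ∃ (G₀ : Fr k v r D) (G : Fr k v r (D + 1)), G₀.IsFr d.S'.K ∧ Transcendental G₀.K d.X ∧
      G.IsFr (adj F z) ∧ G.K = adj G₀.K d.X := by
  classical
  have hXp := d.X_pos h
  have hfrac := d.frac h
  obtain ⟨Sg, hSg⟩ := hF
  have e2 : Ev d (fun G => ∀ g ∈ insert z Sg, InFrac (HX G d.X) g) := by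
    refine Ev.all _ fun g hg => ?_
    have hgz : g ∈ adj F z := by
      rcases Finset.mem_insert.1 hg with rfl | hg
      · exact (D2P.mem_adj_self F _).1
      · refine (D2P.mem_adj_self F z).2 ?_
        rw [← hSg]
        exact IntermediateField.subset_adjoin _ _ hg
    obtain ⟨a, ha, c, hc, hc0, e⟩ := hfrac g hgz
    refine ((ev_A h hXp ha).and (ev_A h hXp hc)).mono ?_
    rintro G ⟨h1, h2⟩
    exact ⟨a, h1, c, h2, hc0, e⟩
  obtain ⟨W, hW, hWG⟩ := e2
  obtain ⟨G₀, hG₀, hmono₀, -⟩ := hLU D d.S'.s d.pb' W hW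
  have hgen := hWG G₀ hmono₀
  have htrX := X_tr h hXp hfrac htr G₀ hG₀
  have hKz := K_le_adj d
  have hXz : d.X ∈ adj F z := div_mem (aeval_mem_adj _) (hKz d.q_mem)
  refine ⟨G₀, snocFr G₀ hXp.1 hXp.2 htrX, hG₀, htrX, ⟨fun i => hKz (hG₀.x_mem i), ?_, ?_⟩,
    snoc_K G₀ _ _ _⟩
  · refine Fin.lastCases ?_ fun j => ?_
    · change (Fin.snoc G₀.y d.X : Fin (D + 1) → Ω) _ ∈ adj F z
      rw [Fin.snoc_last]
      exact hXz
    · change (Fin.snoc G₀.y d.X : Fin (D + 1) → Ω) _ ∈ adj F z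
      rw [Fin.snoc_castSucc]
      exact hKz (hG₀.y_mem j)
  · set G := snocFr G₀ hXp.1 hXp.2 htrX with hGdef
    have hH : G.H = HX G₀ d.X := snoc_H h G₀ hXp.1 hXp.2 htrX
    have hk : ∀ c : k, algebraMap k Ω c ∈ fracF G.H := fun c =>
      le_fracF (P1.P_le_H G (P1.k_mem_P G c))
    have h1 : adj F z ≤ Subfield.toIntermediateField (fracF G.H) hk := by
      refine sup_le ?_ ?_
      · rw [← hSg, IntermediateField.adjoin_le_iff]
        intro g hg
        have h2 := hgen g (Finset.mem_insert_of_mem hg)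
        rw [← hH] at h2
        exact h2
      · rw [IntermediateField.adjoin_le_iff]
        intro g hg
        rw [Set.mem_singleton_iff.1 hg]
        have h2 := hgen z (Finset.mem_insert_self _ _)
        rw [← hH] at h2
        exact h2
    exact fun e he => h1 he

/-- Dense values. -/
theorem estar_fr_dns [IsAlgClosed Ω] [IsAlgClosed k] (p : ℕ) [Fact p.Prime] [CharP k p]
    [CharP Ω p] (h : Ctx k v r) {F : IntermediateField k Ω} (hF : F.FG) (hfull : Full v F)
    (hBD : BD p v F) {n : ℕ} (htr : Algebra.trdeg k F = n)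
    (hLU : ∀ E : IntermediateField k Ω, E.FG → Full v E → Algebra.trdeg k E = n →
      BD p v E → LU p v r E) (hd : Dns v F) {z : Ω} (hz : Transcendental F z) :
    ∃ (D : ℕ) (G : Fr k v r D), G.IsFr (adj F z) ∧ LU p v r G.K := by
  classical
  have hrn := hfull.rank_le h htr
  obtain ⟨D, rfl⟩ := Nat.exists_eq_add_of_le hrn
  obtain ⟨η, ρ, b, hc, -⟩ := exists_cen p h hF hfull hd hz ∅ (by simp)
  obtain ⟨b₁, ε, ⟨d⟩⟩ := exists_SD p h hF hfull hBD htr hLU hd hc
  have hBD' : BD p v d.S'.K := ⟨_, d.S'.s, d.pb', ε, d.orth'⟩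
  have hLU' : LU p v r d.S'.K := hLU _ (Est.fg_K d.S') (Est.full_K h d.S')
    (Est.trdeg_K d.S') hBD'
  obtain ⟨G₀, G, hG₀, hX, hG, hGK⟩ := frame_K h d hF htr hLU'
  refine ⟨D + 1, G, hG, ?_⟩
  rw [hGK]
  have hBD₀ : BD p v G₀.K := BD.congr p hBD' (Est.fg_K G₀) (Fr.IsFr.hen_eq p h hG₀)
  exact estar' p h (Est.fg_K G₀) (Est.full_K h G₀) hBD₀ (Est.trdeg_K G₀) hLU hX

/-- The frame of the first coordinates. -/
def fst (F : Fr k v r D) : Fr k v r 0 where
  x := F.x
  y := Fin.elim0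
  x_ne := F.x_ne
  x_ind := F.x_ind
  y_ne := fun j => j.elim0
  y_pos := fun j => j.elim0
  alg := by
    have h1 := F.alg.comp (Sum.elim Sum.inl (fun j : Fin 0 => j.elim0) :
      Fin r ⊕ Fin 0 → Fin r ⊕ Fin D) (by
        rintro (i | i) (j | j) hij
        · exact congrArg Sum.inl (Sum.inl.inj hij)
        · exact j.elim0
        · exact i.elim0
        · exact i.elim0)
    convert h1 using 1
    funext i
    rcases i with i | i
    · rfl
    · exact i.elim0

/-- Dimension two. -/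
theorem estar_fr_surf [IsAlgClosed Ω] [IsAlgClosed k] (p : ℕ) [Fact p.Prime] [CharP k p]
    [CharP Ω p] (h : Ctx k v 1) {F : IntermediateField k Ω} (hF : F.FG) (hfull : Full v F)
    (htr : Algebra.trdeg k F = 1) {z : Ω} (hz : Transcendental F z) :
    ∃ (D : ℕ) (G : Fr k v 1 D), G.IsFr (adj F z) ∧ LU p v 1 G.K := by
  obtain ⟨t, ht⟩ := exists_pbasis (n := 1 + 1) p (D2P.fg_adj hF z) (by
    rw [HRLU.trdeg_adj hz, htr]
    push_cast
    norm_num)
  obtain ⟨G, hG, -, -⟩ := LU_surf p h hF hfull htr hz 1 t ht ∅ (by simp)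
  refine ⟨1, G, hG, ?_⟩
  have hK₀ : (fst G).K = IntermediateField.adjoin k (Set.range G.x) := by
    rw [Fr.K]
    change IntermediateField.adjoin k (Set.range G.x ∪ Set.range (Fin.elim0 : Fin 0 → Ω)) = _
    rw [Set.range_eq_empty (Fin.elim0 : Fin 0 → Ω), Set.union_empty]
  have hK : G.K = adj (fst G).K (G.y 0) := by
    have h1 : Set.range G.y = {G.y 0} := by
      ext a
      constructor
      · rintro ⟨i, rfl⟩
        rw [Subsingleton.elim i 0]
        rfl
      · intro ha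
        rw [Set.mem_singleton_iff.1 ha]
        exact ⟨0, rfl⟩
    have h2 : adj (fst G).K (G.y 0) = (fst G).K ⊔ IntermediateField.adjoin k {G.y 0} := rfl
    rw [h2, hK₀, Fr.K, h1, IntermediateField.adjoin_union]
  have htrd := Est.trdeg_K (fst G)
  have hX : Transcendental (fst G).K (G.y 0) := by
    intro halg
    have h1 : G.K ≤ TGL44.Wc (fst G).K := by
      rw [hK]
      refine sup_le TGL44.le_Wc ?_
      rw [IntermediateField.adjoin_le_iff, Set.singleton_subset_iff]
      exact TGL44.mem_Wc.2 halg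
    have h2 : Algebra.trdeg k G.K ≤ Algebra.trdeg k (TGL44.Wc (fst G).K) :=
      _root_.trdeg_le_of_injective (IntermediateField.inclusion h1)
        (IntermediateField.inclusion_injective h1)
    rw [TGL44.trdeg_Wc, Est.trdeg_K, htrd, Nat.cast_le] at h2
    omega
  rw [hK]
  refine LU_surf p h (Est.fg_K (fst G)) (Est.full_K h (fst G)) ?_ hX
  rw [htrd]
  simp

end R1

/-- ROW R1, with the hypothesis of E*. The frames `(F*.x, F*.y, X)` of `F(z)` of E10. -/
theorem estar_fr' [IsAlgClosed Ω] [IsAlgClosed k] (p : ℕ) [Fact p.Prime] [CharP k p] [CharP Ω p]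
    (h : Ctx k v r) {F : IntermediateField k Ω} (hF : F.FG) (hfull : Full v F)
    (hBD : BD p v F) {n : ℕ} (htr : Algebra.trdeg k F = n)
    (hLU : ∀ E : IntermediateField k Ω, E.FG → Full v E → Algebra.trdeg k E = n →
      BD p v E → LU p v r E) {z : Ω} (hz : Transcendental F z) :
    ∃ (D : ℕ) (G : Fr k v r D), G.IsFr (adj F z) ∧ LU p v r G.K := by
  have hrn := hfull.rank_le h htr
  have hr0 := h.rpos
  rcases Nat.lt_or_ge r 2 with hr | hr
  · obtain rfl : r = 1 := by omega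
    rcases Nat.lt_or_ge n 2 with hn | hn
    · obtain rfl : n = 1 := by omega
      exact R1.estar_fr_surf p h hF hfull (by rw [htr]; simp) hz
    · exact R1.estar_fr_dns p h hF hfull hBD htr hLU (dns_of_BD p h hF hfull hBD htr hn) hz
  · exact R1.estar_fr_dns p h hF hfull hBD htr hLU (Est.dns_of_rank h hr hfull) hz

/-- ROW R1. The frames `(F*.x, F*.y, X)` of `F(z)` of E10: `G.K = adj F*.K X`, `F*.K` has bounded
distortion and `estar'` applies to `G.K`. -/
theorem estar_fr [IsAlgClosed Ω] [IsAlgClosed k] (p : ℕ) [Fact p.Prime] [CharP k p] [CharP Ω p]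
    (h : Ctx k v r) {F : IntermediateField k Ω} (hF : F.FG) (hfull : Full v F)
    (hBD : BD p v F) {n : ℕ} (htr : Algebra.trdeg k F = n) (hLU : LUB p v k r n)
    {z : Ω} (hz : Transcendental F z) :
    ∃ (D : ℕ) (G : Fr k v r D), G.IsFr (adj F z) ∧ LU p v r G.K :=
  estar_fr' p h hF hfull hBD htr hLU hz

end Pool.Agent.TW
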