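import Pool.Agent.Lib.TWR.R1
import Pool.Agent.Lib.TW.X6
import Pool.Agent.Lib.TWN.Fin2a

/-!
# TANK W, row R2: local uniformization of `F(z)^h`, `F` with bounded distortion
-/

set_option autoImplicit false

namespace Pool.Agent.TW

open Pool.Agent.H15JM (RVal)
open Pool.Agent.LU1 (VPos adj)
open Pool.Agent.LUC (LUs)
open Pool.Agent.D2P (hen)

universe u

variable {k Ω : Type u} [Field k] [Field Ω] [Algebra k Ω] {v : RVal Ω} {r : ℕ}

/-- ROW R2. Local uniformization of the fields with the henselization of `F(z)`, `F` with bounded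
distortion, `z` transcendental over `F`. -/
theorem lus_of_adj_bd [IsAlgClosed Ω] [IsAlgClosed k] (p : ℕ) [Fact p.Prime] [CharP k p]
    [CharP Ω p] (h : Ctx k v r) {F : IntermediateField k Ω} (hF : F.FG) (hfull : Full v F)
    (hBD : BD p v F) {n : ℕ} (htr : Algebra.trdeg k F = n) (hLU : LUB p v k r n)
    {z : Ω} (hz : Transcendental F z) {E : IntermediateField k Ω} (hE : E.FG)
    (hΩ : ∀ g : Ω, IsAlgebraic E g) (hh : hen v E = hen v (adj F z)) :
    LUs v (algebraMap k Ω).range E.toSubfield := by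
  obtain ⟨D, G, hG, hGLU⟩ := estar_fr p h hF hfull hBD htr hLU hz
  exact lus_of_hen_eq h hE (Est.fg_K G) hΩ (hh.trans (hG.hen_eq p h)) (LU.lus_K p h G hGLU)

end Pool.Agent.TW
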