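import Pool.Agent.Lib.TWR.Defs
import Pool.Agent.Lib.TW.X6
import Pool.Agent.Lib.TWN.NB
import Pool.Agent.Lib.TWN.Fin2a
import Pool.Agent.Lib.TWI.I4
import Pool.Agent.Lib.TWQ.Q5a

/-!
# TANK W, row R3: rational rank at least two, any value group

Residue field `k`, rational rank `r ≥ 2`. Local uniformization of the fields of defect at most `δ`
is reduced to the fields with bounded distortion: a field without bounded distortion is `L(z)` up to
henselization, `z` a limit of elements algebraic over `L`, and by the irrational trick the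
valuation may be replaced by one of rational rank `r + 1`.
-/

set_option autoImplicit false

open Polynomial

namespace Pool.Agent.TW

open Pool.Agent.H15JM (RVal)
open Pool.Agent.LU1 (VPos adj)
open Pool.Agent.LUC (Cl LUs)
open Pool.Agent.D2 (Ctx0)
open Pool.Agent.D2P (hen mem_hen mem_adj_self isAlgebraic_mono)

universe u

variable {k Ω : Type u} [Field k] [Field Ω] [Algebra k Ω]

namespace R3

variable {v : RVal Ω} {r : ℕ}

/-- Residue field `k`: the defect is at most `trdeg - r`. -/
theorem defL (h : Ctx k v r) {E : IntermediateField k Ω} (hfull : Full v E) {δ : ℕ}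
    (htr : Algebra.trdeg k E ≤ ((r + δ : ℕ) : Cardinal)) : DefL v E δ := by
  obtain ⟨x, hx, hxi, -⟩ := hfull.exists_span h
  refine ⟨r, 0, x, Fin.elim0, by simpa using htr, hx, hxi, fun i => i.elim0, fun P hP => ?_⟩
  obtain ⟨c, rfl⟩ := MvPolynomial.C_surjective (Fin 0) P
  have hc : c ≠ 0 := fun h0 => hP (by rw [h0, map_zero])
  rw [MvPolynomial.aeval_C]
  exact ⟨(map_ne_zero (algebraMap k Ω)).2 hc, h.triv c hc⟩

/-- The rational rank of a valuation with `W (z - α)` irrational over the values of the elements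
algebraic over `L`. -/
theorem ctx_succ (h : Ctx k v r) {L : IntermediateField k Ω} (hLfull : Full v L) {z α : Ω}
    (hz : Transcendental L z) (hΩz : ∀ g : Ω, IsAlgebraic (adj L z) g) {W : RVal Ω}
    (hW0 : Ctx0 k W) (hWv : ∀ f, f ≠ 0 → IsAlgebraic L f → W f = v f) (hα : IsAlgebraic L α)
    (hirr : ∀ (m : ℤ) (f : Ω), m ≠ 0 → f ≠ 0 → IsAlgebraic L f → v f ≠ m * W (z - α)) :
    Ctx k W (r + 1) := by
  have hzα : z - α ≠ 0 := fun h1 => hz (by rw [sub_eq_zero.1 h1]; exact hα)
  have hirrW : ∀ (m : ℤ) (f : Ω), m ≠ 0 → f ≠ 0 → IsAlgebraic L f → W f ≠ m * W (z - α) := by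
    intro m f hm hf hfa
    rw [hWv f hf hfa]
    exact hirr m f hm hf hfa
  obtain ⟨x, hx, hxi, hspan⟩ := hLfull.exists_span h
  have hxa : ∀ i, IsAlgebraic L (x i) := fun i => D2P.isAlgebraic_of_mem (hx i).1
  have hWx : (fun i => W (x i)) = fun i => v (x i) := by
    funext i
    exact hWv _ (hx i).2 (hxa i)
  have hspanW : ∀ f : Ω, f ≠ 0 → IsAlgebraic L f →
      W f ∈ Submodule.span ℚ (Set.range fun i => W (x i)) := by
    intro f hf hfa
    rw [hWx, hWv f hf hfa]
    exact hspan f hf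
  set X : Fin (r + 1) → Ω := Fin.cons (z - α) x with hX
  have hrange : (Set.range fun i => W (X i)) = insert (W (z - α)) (Set.range fun i => W (x i)) := by
    ext y
    constructor
    · rintro ⟨i, rfl⟩
      refine Fin.cases ?_ (fun i => ?_) i
      · exact Or.inl rfl
      · exact Or.inr ⟨i, rfl⟩
    · rintro (rfl | ⟨i, rfl⟩)
      · exact ⟨0, rfl⟩
      · exact ⟨i.succ, rfl⟩
  set S : Submodule ℚ ℝ := Submodule.span ℚ (Set.range fun i => W (X i)) with hS
  have hb : W (z - α) ∈ S := Submodule.subset_span ⟨0, rfl⟩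
  have hlow : ∀ f : Ω, f ≠ 0 → IsAlgebraic L f → W f ∈ S := by
    intro f hf hfa
    rw [hS, hrange]
    exact Submodule.span_mono (Set.subset_insert _ _) (hspanW f hf hfa)
  have hq : ∀ q : L[X], aeval z q ≠ 0 → W (aeval z q) ∈ S := by
    intro q hq
    obtain ⟨j, h1, h2⟩ := I4.val_aeval_irr hzα hα hirrW q hq
    rw [h2]
    refine add_mem (hlow _ h1 ?_) ?_
    · have h3 : α ∈ algebraicClosure L Ω := mem_algebraicClosure_iff.2 hα
      rw [← mem_algebraicClosure_iff, aeval_eq_sum_range]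
      exact sum_mem fun j _ => (algebraicClosure L Ω).smul_mem (pow_mem h3 j)
    · have h3 := S.smul_mem (j : ℚ) hb
      rw [Rat.smul_def] at h3
      push_cast at h3
      exact h3
  have hadj : ∀ g ∈ adj L z, g ≠ 0 → W g ∈ S := by
    intro g hg hg0
    rw [adj_eq] at hg
    obtain ⟨r, s, h1⟩ := (IntermediateField.mem_adjoin_simple_iff L g).1 hg
    have hr : aeval z r ≠ 0 := by
      intro h2
      rw [h2, zero_div] at h1
      exact hg0 h1
    have hs : aeval z s ≠ 0 := by
      intro h2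
      rw [h2, div_zero] at h1
      exact hg0 h1
    rw [h1, W.map_div hr hs]
    exact sub_mem (hq r hr) (hq s hs)
  have hall : ∀ g : Ω, g ≠ 0 → W g ∈ S := by
    intro g hg
    obtain ⟨m, hm, c, hc, hc0, hcv⟩ := full_of_alg (v := W) hΩz g hg
    have h1 := hadj c hc hc0
    have h2 := S.smul_mem ((m : ℚ)⁻¹) h1
    rw [hcv, Rat.smul_def] at h2
    push_cast at h2
    have hm' : (m : ℝ) ≠ 0 := by exact_mod_cast hm.ne'
    rwa [inv_mul_cancel_left₀ hm'] at h2
  refine ⟨hW0, Nat.succ_pos r, X, ?_, ?_, hall⟩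
  · intro i
    refine Fin.cases hzα (fun i => (hx i).2) i
  · have h1 : W (z - α) = W (1 : Ω) + (1 : ℕ) * W (z - α) := by
      rw [W.map_one]
      push_cast
      ring
    exact I4.linInd_cons (L := L) hxa (fun i => (hx i).2) (by rw [hWx]; exact hxi) one_ne_zero
      one_ne_zero isAlgebraic_one h1 hirrW

end R3

/-- ROW R3. Rational rank `≥ 2`, any value group: from the fields with bounded distortion. -/
theorem lus_rank_two [IsAlgClosed Ω] [IsAlgClosed k] (p : ℕ) [Fact p.Prime] [CharP k p]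
    [CharP Ω p] (δ : ℕ)
    (hLU : ∀ (v : RVal Ω) (r : ℕ), Ctx k v r → 2 ≤ r → ∀ m, 2 ≤ m → m ≤ δ → LUB p v k r (r + m)) :
    ∀ (m : ℕ), m ≤ δ → ∀ (v : RVal Ω) (r : ℕ), Ctx k v r → 2 ≤ r → ∀ E : IntermediateField k Ω,
      E.FG → (∀ g : Ω, IsAlgebraic E g) → Algebra.trdeg k E = (r + m : ℕ) →
      LUs v (algebraMap k Ω).range E.toSubfield := by
  classical
  intro m
  induction m with
  | zero =>
    intro _ v r h hr E hE hΩ htr
    exact lus_of_defL p h.triv hE ((full_of_alg hΩ).exists_pos h)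
      (R3.defL h (full_of_alg hΩ) (by rw [htr]; exact_mod_cast Nat.le_succ r))
  | succ m ih =>
    intro hmδ v r h hr E hE hΩ htr
    have hfull : Full v E := full_of_alg hΩ
    rcases Nat.eq_zero_or_pos m with rfl | hm
    · exact lus_of_defL p h.triv hE (hfull.exists_pos h) (R3.defL h hfull htr.le)
    by_cases hBD : BD p v E
    · exact LU.lus p h hE hfull hBD htr (hLU v r h hr (m + 1) (by omega) hmδ) hΩ
    obtain ⟨L, z, hLfg, hLfull, hz, hlim, hh⟩ := hrone_of_not_bd p h hE hfull hΩ hBD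
    have hzfg : (adj L z).FG := D2P.fg_adj hLfg z
    have hΩz : ∀ g : Ω, IsAlgebraic (adj L z) g := fun g =>
      D2P.isAlgebraic_trans (F := E) (fun a ha => by
        have h1 : a ∈ hen v (adj L z) := by
          rw [← hh]
          exact D2P.le_hen _ ha
        exact (mem_hen.1 h1).2.isIntegral.isAlgebraic) (hΩ g)
    have htrz : Algebra.trdeg k (adj L z) = ((r + 1 + m : ℕ) : Cardinal) := by
      rw [← HRLU.trdeg_hen (v := v) (adj L z), ← hh, HRLU.trdeg_hen, htr]
      congr 1
      omega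
    refine lus_of_hen_eq h hE hzfg hΩ hh ?_
    obtain ⟨x, hx, hxi, hspan⟩ := hLfull.exists_span h
    have hind : LinearIndependent ℚ ![v (x ⟨0, by omega⟩), v (x ⟨1, by omega⟩)] := by
      have h1 := hxi.comp (![⟨0, by omega⟩, ⟨1, by omega⟩] : Fin 2 → Fin r) (by
        intro i j hij
        fin_cases i <;> fin_cases j <;> simp_all)
      have h2 : (fun i => v (x i)) ∘ (![⟨0, by omega⟩, ⟨1, by omega⟩] : Fin 2 → Fin r) =
          ![v (x ⟨0, by omega⟩), v (x ⟨1, by omega⟩)] := by
        funext i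
        fin_cases i <;> rfl
      rwa [h2] at h1
    refine lus_of_irr h.toCtx0 hLfg (hx _).1 (hx _).1 (hx _).2 (hx _).2 hind hz hΩz hlim ?_
    intro W α hW0 hWv hα hirr
    exact ih (by omega) W (r + 1) (R3.ctx_succ h hLfull hz hΩz hW0 hWv hα hirr) (by omega)
      (adj L z) hzfg hΩz htrz

end Pool.Agent.TW
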