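import Pool.Agent.Lib.TWR.R3
import Pool.Agent.Lib.TWQ.Q6
import Pool.Agent.Lib.TWQ.Q7
import Pool.Agent.Lib.ALL_h26.Fin1

/-!
# TANK W, row R4: rational rank at least two, core of defect at most `δ`
-/

set_option autoImplicit false

open Polynomial

namespace Pool.Agent.TW

open Pool.Agent.H15JM (RVal)
open Pool.Agent.LU1 (VPos adj)
open Pool.Agent.LUC (Cl LUs)
open Pool.Agent.D2 (Ctx0)
open Pool.Agent.D2P (hen mem_hen mem_adj_self isAlgebraic_mono)

universe u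

variable {k Ω : Type u} [Field k] [Field Ω] [Algebra k Ω]

namespace R4

variable {v : RVal Ω} {r : ℕ}

/-- If the elements of `E` are limits of elements algebraic over `C`, the values of `Ω` have
multiples which are values of `C`. -/
theorem full_of_lim {C E : IntermediateField k Ω} (hE : Full v E)
    (hlim : ∀ e ∈ E, LimAlg v C e) : Full v C := by
  intro g hg
  obtain ⟨m, hm, c, hc, hc0, hcv⟩ := hE g hg
  obtain ⟨α, hα, h1⟩ := hlim c hc (v c + 1)
  have h2 : α ≠ 0 ∧ v α = v c := by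
    by_cases h0 : c - α = 0
    · rw [← sub_eq_zero.1 h0]
      exact ⟨hc0, rfl⟩
    · have h3 : v c < v (-(c - α)) := by
        rw [RVal.map_neg _ _ h0]
        have := h1 h0
        linarith
      have h4 := v.add_of_lt hc0 (neg_ne_zero.2 h0) h3
      rw [neg_sub, add_sub_cancel] at h4
      exact h4
  obtain ⟨f, hf0, m', hm', hfv⟩ := LU1.comm_value (v := v) C α h2.1 hα
  refine ⟨m' * m, Nat.mul_pos hm' hm, f, f.2, hf0, ?_⟩
  rw [hfv, h2.2, hcv]
  push_cast
  ring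

theorem two_ind {r : ℕ} (hr : 2 ≤ r) {x : Fin r → Ω}
    (hxi : LinearIndependent ℚ fun i => v (x i)) :
    LinearIndependent ℚ ![v (x ⟨0, by omega⟩), v (x ⟨1, by omega⟩)] := by
  have h1 := hxi.comp (![⟨0, by omega⟩, ⟨1, by omega⟩] : Fin 2 → Fin r) (by
    intro i j hij
    fin_cases i <;> fin_cases j <;> simp_all)
  have h2 : (fun i => v (x i)) ∘ (![⟨0, by omega⟩, ⟨1, by omega⟩] : Fin 2 → Fin r) =
      ![v (x ⟨0, by omega⟩), v (x ⟨1, by omega⟩)] := by
    funext i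
    fin_cases i <;> rfl
  rwa [h2] at h1

/-- Independent values are bounded by the rational rank. -/
theorem le_rank (h : Ctx k v r) {s : ℕ} {y : Fin s → ℝ} (hy : LinearIndependent ℚ y)
    (hyv : ∀ i, ∃ g : Ω, g ≠ 0 ∧ v g = y i) : s ≤ r := by
  classical
  obtain ⟨X, hX0, hXi, hX⟩ := h.rank
  have h1 : Set.range y ⊆ Submodule.span ℚ (Set.range fun i => v (X i)) := by
    rintro _ ⟨i, rfl⟩
    obtain ⟨g, hg, hgv⟩ := hyv i
    rw [← hgv]
    exact hX g hg
  have h2 : Cardinal.mk (Fin s) ≤ Fintype.card (Set.range fun i => v (X i)) :=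
    linearIndependent_le_span' y hy (Set.range fun i => v (X i)) h1
  rw [Cardinal.mk_fin] at h2
  have h3 : Fintype.card (Set.range fun i => v (X i)) ≤ Fintype.card (Fin r) :=
    Fintype.card_range_le _
  rw [Fintype.card_fin] at h3
  exact (Nat.cast_le.1 h2).trans h3

/-- The rational rank of a valuation with residue field `k`. -/
theorem exists_ctx (h : Ctx0 k v) {E : IntermediateField k Ω} (hΩ : ∀ g : Ω, IsAlgebraic E g)
    (hpos : ∃ a ∈ E, a ≠ 0 ∧ 0 < v a) {n : ℕ} (htr : Algebra.trdeg k E = n) :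
    ∃ r : ℕ, Ctx k v r := by
  have htrΩ : Algebra.trdeg k Ω = n := by
    have h1 : Algebra.IsAlgebraic E Ω := ⟨hΩ⟩
    have h2 := trdeg_add_eq k E (A := Ω)
    have h3 : Algebra.trdeg E Ω = 0 := trdeg_eq_zero (R := E) (A := Ω)
    rw [← h2, h3, add_zero, htr]
  obtain ⟨r, X, hX0, hXi, hX⟩ := ALLF.exists_max_ind v h.triv htrΩ
  refine ⟨r, h, ?_, X, hX0, hXi, hX⟩
  rcases Nat.eq_zero_or_pos r with h0 | h0
  · exfalso
    subst h0
    obtain ⟨c, -, hc0, hc⟩ := hpos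
    have h1 := hX c hc0
    rw [Set.range_eq_empty, Submodule.span_empty, Submodule.mem_bot] at h1
    rw [h1] at hc
    exact lt_irrefl _ hc
  · exact h0

end R4

/-- ROW R4. Rational rank `≥ 2`, core of defect `≤ δ`. -/
theorem lus_rank_two_core [IsAlgClosed Ω] [IsAlgClosed k] (p : ℕ) [Fact p.Prime] [CharP k p]
    [CharP Ω p] (δ : ℕ)
    (hLU : ∀ (v : RVal Ω) (r : ℕ), Ctx k v r → 2 ≤ r → ∀ m, 2 ≤ m → m ≤ δ → LUB p v k r (r + m))
    {v : RVal Ω} {r : ℕ}
    (h : Ctx k v r) (hr : 2 ≤ r) {E : IntermediateField k Ω} (hE : E.FG)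
    (hΩ : ∀ g : Ω, IsAlgebraic E g) {L₀ : IntermediateField k Ω} (_hL₀ : L₀.FG)
    (_hpos₀ : ∃ a ∈ L₀, a ≠ 0 ∧ 0 < v a) (hD : DefL v L₀ δ) (hlim : ∀ e ∈ E, LimAlg v L₀ e) :
    LUs v (algebraMap k Ω).range E.toSubfield := by
  classical
  have hfull : Full v E := full_of_alg hΩ
  obtain ⟨m, s, t, t', hind, htE, ht'E, hsep, hp, hl, hfar⟩ :=
    exists_core h.triv hE (hfull.exists_pos h)
  have ht : AlgebraicIndependent k t := by
    have := hind.comp Sum.inl Sum.inl_injective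
    simpa [Function.comp_def] using this
  have hDC : DefL v (IntermediateField.adjoin k (Set.range t)) δ :=
    DefL.of_core' h.triv ht hfar hD fun i => hlim _ (htE i)
  have hEC : ∀ e ∈ E, LimAlg v (IntermediateField.adjoin k (Set.range t)) e := by
    intro e he
    refine LimAlg.field hp (S := Set.range t') (by rintro _ ⟨i, rfl⟩; exact hl i)
      (isAlgebraic_mono ?_ (hsep e he).isIntegral.isAlgebraic)
    refine IntermediateField.adjoin.mono k _ _ (Set.union_subset_union_left _ ?_)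
    exact IntermediateField.subset_adjoin k _
  have hCfull := R4.full_of_lim hfull hEC
  obtain ⟨x, hx, hxi, -⟩ := hCfull.exists_span h
  refine lus_of_basis_irr_gen δ (fun _ _ => True) (fun _ _ _ _ _ _ _ _ _ _ _ _ => trivial) ?_
    s m v h.toCtx0 t t' hind E hE htE ht'E hsep hΩ trivial
    ⟨_, (hx _).1, _, (hx _).1, (hx _).2, (hx _).2, R4.two_ind hr hxi⟩ hDC hl
  intro v' h' C _ _ E' hle _ hE' hΩ' hc hpos' hD'
  obtain ⟨c₁, hc₁, c₂, hc₂, hc₁0, hc₂0, hci⟩ := hc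
  obtain ⟨r₁, q₁, x₁, y₁, htr₁, hx₁, hxi₁, hy₁, hyP₁⟩ := hD'
  obtain ⟨n, hn⟩ := Cardinal.lt_aleph0.1 (htr₁.trans_lt Cardinal.natCast_lt_aleph0)
  obtain ⟨r', hr'⟩ := R4.exists_ctx h' hΩ' hpos' hn
  have hfull' : Full v' E' := full_of_alg hΩ'
  have h2 : 2 ≤ r' := R4.le_rank hr' hci fun i => by
    fin_cases i
    · exact ⟨c₁, hc₁0, rfl⟩
    · exact ⟨c₂, hc₂0, rfl⟩
  have h3 : r₁ ≤ r' := R4.le_rank hr' hxi₁ fun i => ⟨x₁ i, (hx₁ i).2, rfl⟩
  have h4 : q₁ = 0 := by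
    rcases Nat.eq_zero_or_pos q₁ with h0 | h0
    · exact h0
    exfalso
    obtain ⟨c, hc⟩ := h'.residue (hy₁ ⟨0, h0⟩).2
    have hne : (MvPolynomial.X ⟨0, h0⟩ - MvPolynomial.C c : MvPolynomial (Fin q₁) k) ≠ 0 := by
      intro h5
      have h6 := congrArg (MvPolynomial.eval fun _ => c + 1) h5
      rw [map_sub, MvPolynomial.eval_X, MvPolynomial.eval_C, map_zero, add_sub_cancel_left] at h6
      exact one_ne_zero h6
    obtain ⟨h5, h6⟩ := hyP₁ _ hne
    rw [map_sub, MvPolynomial.aeval_X, MvPolynomial.aeval_C] at h5 h6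
    have h7 := hc h5
    rw [h6] at h7
    exact lt_irrefl _ h7
  have h5 : n ≤ r' + δ := by
    rw [hn, h4, add_zero] at htr₁
    have h6 : n ≤ r₁ + δ := by exact_mod_cast htr₁
    omega
  have h6 : r' ≤ n := hfull'.rank_le hr' hn
  obtain ⟨m', rfl⟩ := Nat.exists_eq_add_of_le h6
  exact lus_rank_two p δ hLU m' (by omega) v' r' hr' h2 E' hE' hΩ' hn

end Pool.Agent.TW
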