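import Pool.Agent.Lib.TWR.R2
import Pool.Agent.Lib.TWR.R3
import Pool.Agent.Lib.TWR.R4
import Pool.Agent.Lib.TWQ.Q8

/-!
# TANK W, row R5: any rational rank, core of codimension at most one
-/

set_option autoImplicit false

namespace Pool.Agent.TW

open Pool.Agent.H15JM (RVal)
open Pool.Agent.LU1 (VPos adj)
open Pool.Agent.LUC (Cl LUs)
open Pool.Agent.D2 (Ctx0)
open Pool.Agent.D2P (hen mem_hen isAlgebraic_mono)

universe u

variable {k Ω : Type u} [Field k] [Field Ω] [Algebra k Ω] {v : RVal Ω} {r : ℕ}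

/-- ROW R5. Any rational rank: `E` is not in the completion of the algebraic closure of `L₀` with
`trdeg L₀ ≤ trdeg E - 2`, unless the defect of `L₀` is `≤ 1`. -/
theorem lus_codim_one [IsAlgClosed Ω] [IsAlgClosed k] (p : ℕ) [Fact p.Prime] [CharP k p]
    [CharP Ω p] (h : Ctx k v r) {n : ℕ} (hLU : ∀ m, r + 2 ≤ m → m ≤ n → LUB p v k r m)
    {E : IntermediateField k Ω} (hE : E.FG) (hΩ : ∀ g : Ω, IsAlgebraic E g)
    (htr : Algebra.trdeg k E = n)
    (hcore : ∀ L₀ : IntermediateField k Ω, L₀.FG → Full v L₀ → (∀ e ∈ E, LimAlg v L₀ e) →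
      Algebra.trdeg k L₀ + 2 ≤ Algebra.trdeg k E → DefL v L₀ 1) :
    LUs v (algebraMap k Ω).range E.toSubfield := by
  classical
  have hfull : Full v E := full_of_alg hΩ
  have hposE := hfull.exists_pos h
  by_cases hsmall : n ≤ r + 1
  · exact lus_of_defL p h.triv hE hposE (R3.defL h hfull (by rw [htr]; exact_mod_cast hsmall))
  by_cases hBD : BD p v E
  · exact LU.lus p h hE hfull hBD htr (hLU n (by omega) le_rfl) hΩ
  obtain ⟨m, s, t, t', hind, htE, ht'E, hsep, hp, hl, hfar⟩ := exists_core h.triv hE hposE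
  have ht : AlgebraicIndependent k t := by
    have := hind.comp Sum.inl Sum.inl_injective
    simpa [Function.comp_def] using this
  set C := IntermediateField.adjoin k (Set.range t) with hC
  have hCfg : C.FG := IntermediateField.fg_adjoin_of_finite (Set.finite_range _)
  have hEC : ∀ e ∈ E, LimAlg v C e := by
    intro e he
    refine LimAlg.field hp (S := Set.range t') (by rintro _ ⟨i, rfl⟩; exact hl i)
      (isAlgebraic_mono ?_ (hsep e he).isIntegral.isAlgebraic)
    refine IntermediateField.adjoin.mono k _ _ (Set.union_subset_union_left _ ?_)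
    exact IntermediateField.subset_adjoin k _
  have hCfull : Full v C := R4.full_of_lim hfull hEC
  have hCtr : Algebra.trdeg k C = m := by
    rw [hC, trdeg_adjoin_eq ht.to_subtype_range]
    have h1 := Cardinal.mk_range_eq_of_injective ht.injective
    simpa using h1
  set M := IntermediateField.adjoin k (Set.range t ∪ Set.range t') with hM
  have hME : M ≤ E := by
    rw [hM, IntermediateField.adjoin_le_iff]
    rintro _ (⟨i, rfl⟩ | ⟨i, rfl⟩)
    · exact htE i
    · exact ht'E i
  have hms : m + s = n := by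
    have h1 : Algebra.trdeg k M = ((m + s : ℕ) : Cardinal) := by
      rw [hM, ← Set.Sum.elim_range, trdeg_adjoin_eq hind.to_subtype_range]
      have h1 := Cardinal.mk_range_eq_of_injective hind.injective
      simpa using h1
    have h2 := trdeg_eq_of_alg hME fun a ha => (hsep a ha).isIntegral.isAlgebraic
    rw [h1, htr] at h2
    exact_mod_cast h2.symm
  have hCBD : BD p v C := bd_of_not_limAlg p h.toCtx0 ht hfar
  by_cases hC1 : m ≤ r + 1
  · exact lus_of_limAlg p h.triv hE hΩ hposE hCfg hp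
      (R3.defL h hCfull (by rw [hCtr]; exact_mod_cast hC1)) hEC
  by_cases hs2 : 2 ≤ s
  · refine lus_of_limAlg p h.triv hE hΩ hposE hCfg hp (hcore C hCfg hCfull hEC ?_) hEC
    rw [hCtr, htr]
    exact_mod_cast (by omega : m + 2 ≤ n)
  have hSE := hE
  obtain ⟨S, hS⟩ := hSE
  have hSE : ∀ s ∈ S, s ∈ E := by
    intro s hs
    rw [← hS]
    exact IntermediateField.subset_adjoin k _ hs
  obtain ⟨θ, hθ, hEθ'⟩ := D2P.H0aux.exists_prim (T := M) S fun s hs => hsep s (hSE s hs)
  have hEθ : adj M θ = E := by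
    rw [hEθ', hS]
    exact sup_eq_right.2 hME
  rcases Nat.eq_zero_or_pos s with rfl | hs0
  · exfalso
    have hMC : M = C := by
      rw [hM, hC, Set.range_eq_empty t', Set.union_empty]
    rw [hMC] at hθ hEθ
    exact hBD (by rw [← hEθ]; exact BD.sep p h.toCtx0 hCfg hCBD hθ)
  obtain rfl : s = 1 := by omega
  have hMC : adj C (t' 0) = M := by
    rw [adj, hC, ← IntermediateField.adjoin_union, hM]
    congr 2
    ext x
    constructor
    · rintro rfl
      exact ⟨0, rfl⟩
    · rintro ⟨i, rfl⟩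
      rw [Subsingleton.elim i 0]
      rfl
  have hw : Transcendental C (t' 0) := by
    rw [hC, IntermediateField.transcendental_adjoin_iff]
    have h1 : (Sum.inr 0 : Fin m ⊕ Fin 1) ∉ Set.range (Sum.inl : Fin m → Fin m ⊕ Fin 1) := by
      rintro ⟨a, ha⟩
      cases ha
    have h2 := hind.transcendental_adjoin h1
    rwa [← Set.range_comp, Sum.elim_comp_inl] at h2
  rw [← hMC] at hθ hEθ
  have hΩ' : ∀ g : Ω, IsAlgebraic (adj C (t' 0)) g := by
    intro g
    rw [hMC]
    exact D2P.isAlgebraic_trans (fun a ha => (hsep a ha).isIntegral.isAlgebraic) (hΩ g)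
  obtain ⟨z, hz, hzl, hh⟩ := exists_gen_of_limAlg h.toCtx0 hp hw hθ (hl 0) hΩ'
  rw [hEθ] at hh
  exact lus_of_adj_bd p h hCfg hCfull hCBD hCtr (hLU m (by omega) (by omega)) hz hE hΩ hh

end Pool.Agent.TW
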