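import Pool.Agent.Lib.TWR.R5

/-!
# TANK W, row R6: the real valuations of the function fields of dimension at most four
-/

set_option autoImplicit false

namespace Pool.Agent.TW

open Pool.Agent.H15JM (RVal)
open Pool.Agent.LU1 (VPos adj)
open Pool.Agent.LUC (Cl LUs)
open Pool.Agent.D2 (Ctx0)
open Pool.Agent.D2P (hen mem_hen isAlgebraic_mono)

universe u

variable {k Ω : Type u} [Field k] [Field Ω] [Algebra k Ω] {v : RVal Ω} {r : ℕ}

/-- Rational rank `≥ 2`, fixed dimension `n`: from the fields with bounded distortion of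
dimension `n`. -/
theorem lus_rank_two_dim [IsAlgClosed Ω] [IsAlgClosed k] (p : ℕ) [Fact p.Prime] [CharP k p]
    [CharP Ω p] (n : ℕ)
    (hLU : ∀ (v : RVal Ω) (r : ℕ), Ctx k v r → 2 ≤ r → r + 2 ≤ n → LUB p v k r n) :
    ∀ (m : ℕ) (v : RVal Ω) (r : ℕ), Ctx k v r → 2 ≤ r → r + m = n → ∀ E : IntermediateField k Ω,
      E.FG → (∀ g : Ω, IsAlgebraic E g) → Algebra.trdeg k E = n →
      LUs v (algebraMap k Ω).range E.toSubfield := by
  classical
  intro m
  induction m with
  | zero =>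
    intro v r h hr hn E hE hΩ htr
    exact lus_of_defL p h.triv hE ((full_of_alg hΩ).exists_pos h)
      (R3.defL h (full_of_alg hΩ) (by rw [htr]; exact_mod_cast (by omega : n ≤ r + 1)))
  | succ m ih =>
    intro v r h hr hn E hE hΩ htr
    have hfull : Full v E := full_of_alg hΩ
    rcases Nat.eq_zero_or_pos m with rfl | hm
    · exact lus_of_defL p h.triv hE (hfull.exists_pos h)
        (R3.defL h hfull (by rw [htr]; exact_mod_cast (by omega : n ≤ r + 1)))
    by_cases hBD : BD p v E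
    · exact LU.lus p h hE hfull hBD htr (hLU v r h hr (by omega)) hΩ
    obtain ⟨L, z, hLfg, hLfull, hz, hlim, hh⟩ := hrone_of_not_bd p h hE hfull hΩ hBD
    have hzfg : (adj L z).FG := D2P.fg_adj hLfg z
    have hΩz : ∀ g : Ω, IsAlgebraic (adj L z) g := fun g =>
      D2P.isAlgebraic_trans (F := E) (fun a ha => by
        have h1 : a ∈ hen v (adj L z) := by
          rw [← hh]
          exact D2P.le_hen _ ha
        exact (mem_hen.1 h1).2.isIntegral.isAlgebraic) (hΩ g)
    have htrz : Algebra.trdeg k (adj L z) = (n : Cardinal) := by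
      rw [← HRLU.trdeg_hen (v := v) (adj L z), ← hh, HRLU.trdeg_hen, htr]
    refine lus_of_hen_eq h hE hzfg hΩ hh ?_
    obtain ⟨x, hx, hxi, hspan⟩ := hLfull.exists_span h
    have hind : LinearIndependent ℚ ![v (x ⟨0, by omega⟩), v (x ⟨1, by omega⟩)] := by
      have h1 := hxi.comp (![⟨0, by omega⟩, ⟨1, by omega⟩] : Fin 2 → Fin r) (by
        intro i j hij
        fin_cases i <;> fin_cases j <;> simp_all)
      have h2 : (fun i => v (x i)) ∘ (![⟨0, by omega⟩, ⟨1, by omega⟩] : Fin 2 → Fin r) =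
          ![v (x ⟨0, by omega⟩), v (x ⟨1, by omega⟩)] := by
        funext i
        fin_cases i <;> rfl
      rwa [h2] at h1
    refine lus_of_irr h.toCtx0 hLfg (hx _).1 (hx _).1 (hx _).2 (hx _).2 hind hz hΩz hlim ?_
    intro W α hW0 hWv hα hirr
    exact ih W (r + 1) (R3.ctx_succ h hLfull hz hΩz hW0 hWv hα hirr) (by omega) (by omega)
      (adj L z) hzfg hΩz htrz

/-- ROW R6. DIMENSION FOUR: the real valuations with residue field `k` of the function fields of
dimension `≤ 4`. -/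
theorem lus_dim_four [IsAlgClosed Ω] [IsAlgClosed k] (p : ℕ) [Fact p.Prime] [CharP k p]
    [CharP Ω p] (hLU : ∀ (v : RVal Ω) (r : ℕ), Ctx k v r → ∀ n, r + 2 ≤ n → n ≤ 4 → LUB p v k r n)
    (h : Ctx k v r) {E : IntermediateField k Ω} (hE : E.FG) (hΩ : ∀ g : Ω, IsAlgebraic E g)
    (htr : Algebra.trdeg k E ≤ 4) : LUs v (algebraMap k Ω).range E.toSubfield := by
  have hfull : Full v E := full_of_alg hΩ
  obtain ⟨n, hn⟩ := Cardinal.lt_aleph0.1 (htr.trans_lt (Cardinal.natCast_lt_aleph0 (n := 4)))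
  have hn4 : n ≤ 4 := by
    rw [hn] at htr
    exact_mod_cast htr
  have hrn : r ≤ n := hfull.rank_le h hn
  obtain ⟨m, hm⟩ := Nat.exists_eq_add_of_le hrn
  have hrpos := h.rpos
  by_cases hr : 2 ≤ r
  · exact lus_rank_two_dim p n (fun v' r' h' _ hr' => hLU v' r' h' n hr' hn4) m v r h hr
      hm.symm E hE hΩ hn
  obtain rfl : r = 1 := by omega
  refine lus_codim_one p h (fun m' h1 h2 => hLU v 1 h m' h1 (h2.trans hn4)) hE hΩ hn ?_
  intro L₀ _ hfull₀ _ h2
  refine R3.defL h hfull₀ ?_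
  rw [hn] at h2
  have h3 : Algebra.trdeg k L₀ < Cardinal.aleph0 :=
    ((self_le_add_right _ _).trans h2).trans_lt Cardinal.natCast_lt_aleph0
  obtain ⟨d, hd⟩ := Cardinal.lt_aleph0.1 h3
  rw [hd] at h2 ⊢
  have h4 : d + 2 ≤ n := by exact_mod_cast h2
  exact_mod_cast (by omega : d ≤ 1 + 1)

end Pool.Agent.TW
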